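import Pool.Agent.Helper13.FS.MG1
import Pool.Agent.Helper84.FS.MG2
import Pool.Agent.Helper46.FS.MG3
import Pool.Agent.Helper24.FS.SML
import Pool.Agent.Helper93.FS.CVX
import Pool.Agent.Helper2.FS.FIB
import Pool.Agent.Helper7.FS.PRS
import Pool.Agent.Helper31.FS.LOC
import Pool.Agent.Helper99.FS.GLO
import Pool.Agent.Helper76.FS.CRS
import Pool.Agent.Helper72.FS.PS1
import Pool.Agent.Helper49.FS.PS2
import Pool.Agent.Helper47.FS.PSI
import Pool.Agent.Helper73.FS.PAR
import Pool.Agent.Helper81.FS.NUM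
import Pool.Agent.Helper41.FS.FIN

set_option autoImplicit false

namespace Pool.Agent.Helper5.FS

theorem all_PRS : ST_PRS := st_PRS st_SML Pool.Agent.Helper93.FS.st_CVX
theorem all_LOC : ST_LOC := Pool.Agent.Helper31.FS.st_LOC st_MG1 st_MG2 st_MG3 all_PRS
  Pool.Agent.Helper2.FS.st_FIB
theorem all_GLO : ST_GLO := st_GLO st_MG2 all_LOC
theorem all_CRS : ST_CRS := Pool.Agent.Helper76.FS.st_CRS st_MG1 st_MG2
theorem all_PSI : ST_PSI := st_PSI st_PS1 st_PS2
theorem all_PAR : ST_PAR := st_PAR st_MG1 all_GLO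
theorem all_FIN : ST_FIN := st_FIN all_CRS all_PSI all_PAR st_NUM

end Pool.Agent.Helper5.FS
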