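import Pool.Agent.Helper5.FS.Stmts2

set_option autoImplicit false

open Finset

namespace Pool.Agent.Helper5.FS

/-- main theorem: constant `c > 2 log 2`, coarsening hypothesis for one `m`, and the explicit
form -/
def ST_FI3 : Prop := ∀ c : ℝ, 2 * Real.log 2 < c → ∃ K : ℝ, 0 ≤ K ∧ (5 ≤ c → K = 0) ∧
  ∀ (n : ℕ) (E : Finset (Finset (Fin n))) (b : ℕ → ℕ), 1 ≤ n →
  (∀ m : ℕ, b m = Set.ncard {P : Finset (Finset (Fin n)) |
    P.card = m ∧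
    (∀ B ∈ P, B.Nonempty) ∧
    (∀ B ∈ P, ∀ C ∈ P, B ≠ C → Disjoint B C) ∧
    (∀ v : Fin n, ∃ B ∈ P, v ∈ B) ∧
    (∀ B ∈ P, ∀ e ∈ E, ¬ e ⊆ B)}) →
  (∀ T m : ℕ, 1 ≤ T →
    K ≤ Real.log ((n : ℝ) /
      (1 + Real.sqrt (2 * (E.filter (fun e => e.card ≤ T)).card) + 2 * n / T)) →
    c * (n : ℝ) ≤ m * Real.log ((n : ℝ) /
      (1 + Real.sqrt (2 * (E.filter (fun e => e.card ≤ T)).card) + 2 * n / T)) →
    b m ≤ b (m - 1)) ∧
  ∀ q m : ℕ, 1 ≤ q → K ≤ Real.log ((n : ℝ) / q) →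
    c * (n : ℝ) ≤ m * Real.log ((n : ℝ) / q) →
    (∀ P : Finset (Finset (Fin n)), Pt P → Ind E P → P.card = m →
      ∃ Q, Pt Q ∧ Ind E Q ∧ Rf P Q ∧ Q.card ≤ q) → b m ≤ b (m - 1)

theorem st_FI3 (h1 : ST_CRS) (h2 : ST_PSI) (h3 : ST_PAR) (h4 : ST_NUM) (h5 : ST_PA2)
    (h6 : ST_NU2) : ST_FI3 := by
  -- the general part gives the explicit part
  have ded : ∀ (c K : ℝ), 0 ≤ c → 
      ∀ (n : ℕ) (E : Finset (Finset (Fin n))) (b : ℕ → ℕ), 1 ≤ n →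
      (∀ q m : ℕ, 1 ≤ q → K ≤ Real.log ((n : ℝ) / q) →
        c * (n : ℝ) ≤ m * Real.log ((n : ℝ) / q) →
        (∀ P : Finset (Finset (Fin n)), Pt P → Ind E P → P.card = m →
          ∃ Q, Pt Q ∧ Ind E Q ∧ Rf P Q ∧ Q.card ≤ q) → b m ≤ b (m - 1)) →
      (∀ T m : ℕ, 1 ≤ T →
        K ≤ Real.log ((n : ℝ) /
          (1 + Real.sqrt (2 * (E.filter (fun e => e.card ≤ T)).card) + 2 * n / T)) →
        c * (n : ℝ) ≤ m * Real.log ((n : ℝ) /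
          (1 + Real.sqrt (2 * (E.filter (fun e => e.card ≤ T)).card) + 2 * n / T)) →
        b m ≤ b (m - 1)) := by
    intro c K hc n E b hn key T m hT hK hm
    have hnR : (1:ℝ) ≤ n := by exact_mod_cast hn
    have hTR : (1:ℝ) ≤ T := by exact_mod_cast hT
    set x : ℝ := 1 + Real.sqrt (2 * (E.filter (fun e => e.card ≤ T)).card) + 2 * n / T with hx
    have hx1 : 1 ≤ x := by
      have a1 : 0 ≤ Real.sqrt (2 * (E.filter (fun e => e.card ≤ T)).card) := Real.sqrt_nonneg _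
      have a2 : 0 ≤ 2 * (n:ℝ) / T := by positivity
      rw [hx]; linarith
    have hq1 : 1 ≤ ⌊x⌋₊ := by
      rw [Nat.one_le_floor_iff]; exact hx1
    have hq1R : (1:ℝ) ≤ (⌊x⌋₊ : ℝ) := by exact_mod_cast hq1
    have hqx : ((⌊x⌋₊ : ℕ) : ℝ) ≤ x := Nat.floor_le (by linarith)
    have hlog : Real.log ((n : ℝ) / x) ≤ Real.log ((n : ℝ) / (⌊x⌋₊ : ℕ)) := by
      refine Real.log_le_log (by positivity) ?_
      exact div_le_div_of_nonneg_left (by linarith) (by linarith) hqx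
    refine key ⌊x⌋₊ m hq1 (hK.trans hlog) ?_ ?_
    · exact hm.trans (mul_le_mul_of_nonneg_left hlog (Nat.cast_nonneg m))
    · intro P hP1 hP2 _
      obtain ⟨Q, hQ1, hQ2, hQ3, hQ4⟩ := h1 n E P hP1 hP2
      exact ⟨Q, hQ1, hQ2, hQ3, Nat.le_floor (h2 n T E Q hT hQ1 hQ2 hQ4)⟩
  intro c hc
  have hc0 : 0 ≤ c := by
    have := Real.log_pos (one_lt_two)
    linarith
  by_cases h5c : 5 ≤ c
  · refine ⟨0, le_refl _, fun _ => rfl, ?_⟩
    intro n E b hn hb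
    have key : ∀ q m : ℕ, 1 ≤ q → 0 ≤ Real.log ((n : ℝ) / q) →
        c * (n : ℝ) ≤ m * Real.log ((n : ℝ) / q) →
        (∀ P : Finset (Finset (Fin n)), Pt P → Ind E P → P.card = m →
          ∃ Q, Pt Q ∧ Ind E Q ∧ Rf P Q ∧ Q.card ≤ q) → b m ≤ b (m - 1) := by
      intro q m hq _ hm hP
      have h5n : 5 * (n : ℝ) ≤ m * Real.log ((n : ℝ) / q) :=
        (mul_le_mul_of_nonneg_right h5c (Nat.cast_nonneg n)).trans hm
      obtain ⟨s, hs1, hs2⟩ := h4 n m q hq hn h5n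
      exact h3 n m q s E b hb hq hs1 hs2 hP
    exact ⟨ded c 0 hc0 n E b hn key, key⟩
  · obtain ⟨K, hK⟩ := h6 (c - 2 * Real.log 2) (by linarith)
    refine ⟨max K 0, le_max_right _ _, fun h => absurd h h5c, ?_⟩
    intro n E b hn hb
    have key : ∀ q m : ℕ, 1 ≤ q → max K 0 ≤ Real.log ((n : ℝ) / q) →
        c * (n : ℝ) ≤ m * Real.log ((n : ℝ) / q) →
        (∀ P : Finset (Finset (Fin n)), Pt P → Ind E P → P.card = m →
          ∃ Q, Pt Q ∧ Ind E Q ∧ Rf P Q ∧ Q.card ≤ q) → b m ≤ b (m - 1) := by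
      intro q m hq hKq hm hP
      obtain ⟨s, k, hs0, hs1, hs2, hs3⟩ := hK n m q hq hn ((le_max_left _ _).trans hKq) (by
        have : (2 * Real.log 2 + (c - 2 * Real.log 2)) = c := by ring
        rw [this]; exact hm)
      exact h5 n m q s k E b hb hq hs0 hs1 hs2 hs3 hP
    exact ⟨ded c (max K 0) hc0 n E b hn key, key⟩

end Pool.Agent.Helper5.FS
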