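import Pool.Agent.Helper5.FS.All
import Pool.Agent.Helper5.FS.Final
import Pool.Agent.Helper24.FS.SM2
import Pool.Agent.Helper13.FS.PR2
import Pool.Agent.Helper99.FS.LO2
import Pool.Agent.Helper99.FS.GL2
import Pool.Agent.Helper59.FS.PA2
import Pool.Agent.Helper12.FS.NU2

set_option autoImplicit false

namespace Pool.Agent.Helper5.FS

theorem all_PR2 : ST_PR2 := st_PR2 st_SM2 Pool.Agent.Helper93.FS.st_CVX
theorem all_LO2 : ST_LO2 := Pool.Agent.Helper99.FS.st_LO2 st_MG1 st_MG2 st_MG3 all_PR2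
  Pool.Agent.Helper2.FS.st_FIB
theorem all_GL2 : ST_GL2 := st_GL2 st_MG2 all_LO2
theorem all_PA2 : ST_PA2 := st_PA2 st_MG1 all_GL2
theorem all_FI3 : ST_FI3 := st_FI3 all_CRS all_PSI all_PAR st_NUM all_PA2
  st_NU2

end Pool.Agent.Helper5.FS
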