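import Mathlib

set_option autoImplicit false

open Finset

namespace Pool.Agent.Helper5.FS

/-- partition of all vertices into nonempty blocks -/
def Pt {n : ℕ} (P : Finset (Finset (Fin n))) : Prop :=
  (∀ B ∈ P, B.Nonempty) ∧ (∀ B ∈ P, ∀ C ∈ P, B ≠ C → Disjoint B C) ∧
    (∀ v : Fin n, ∃ B ∈ P, v ∈ B)

/-- no block contains an edge -/
def Ind {n : ℕ} (E P : Finset (Finset (Fin n))) : Prop := ∀ B ∈ P, ∀ e ∈ E, ¬ e ⊆ B

/-- any two blocks contain an edge in their union -/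
def Cpl {n : ℕ} (E P : Finset (Finset (Fin n))) : Prop :=
  ∀ A ∈ P, ∀ B ∈ P, A ≠ B → ∃ e ∈ E, e ⊆ A ∪ B

/-- `P` refines `Q` -/
def Rf {n : ℕ} (P Q : Finset (Finset (Fin n))) : Prop := ∀ B ∈ P, ∃ C ∈ Q, B ⊆ C

/-- merge two blocks -/
def mg {n : ℕ} (P : Finset (Finset (Fin n))) (A B : Finset (Fin n)) : Finset (Finset (Fin n)) :=
  insert (A ∪ B) ((P.erase A).erase B)

/-- merging: partition with one block less -/
def ST_MG1 : Prop := ∀ (n : ℕ) (P : Finset (Finset (Fin n))) (A B : Finset (Fin n)),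
  Pt P → A ∈ P → B ∈ P → A ≠ B → Pt (mg P A B) ∧ (mg P A B).card + 1 = P.card

/-- merging inside a block of `Q`; `P` refines `mg P A B`; transitivity; independence -/
def ST_MG2 : Prop := (∀ (n : ℕ) (P Q : Finset (Finset (Fin n))) (A B C : Finset (Fin n)),
    Rf P Q → C ∈ Q → A ⊆ C → B ⊆ C → Rf (mg P A B) Q) ∧
  (∀ (n : ℕ) (P : Finset (Finset (Fin n))) (A B : Finset (Fin n)), Rf P (mg P A B)) ∧
  (∀ (n : ℕ) (P Q R : Finset (Finset (Fin n))), Rf P Q → Rf Q R → Rf P R) ∧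
  (∀ (n : ℕ) (E P Q : Finset (Finset (Fin n))), Rf P Q → Ind E Q → Ind E P)

/-- the merged partition and one of the two blocks determine everything -/
def ST_MG3 : Prop := ∀ (n : ℕ) (P P' : Finset (Finset (Fin n))) (A B B' : Finset (Fin n)),
  Pt P → Pt P' → A ∈ P → B ∈ P → A ≠ B → A ∈ P' → B' ∈ P' → A ≠ B' →
  mg P A B = mg P' A B' → P = P' ∧ B = B'

/-- at least half of the blocks are small -/
def ST_SML : Prop := ∀ (n s m : ℕ) (P : Finset (Finset (Fin n))), Pt P → P.card = m →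
  2 * n ≤ (s + 1) * m → m ≤ 2 * (P.filter (fun B => B.card ≤ s)).card

/-- Cauchy-Schwarz for the fibres of `f` -/
def ST_CVX : Prop := ∀ (α β : Type) [DecidableEq α] [DecidableEq β] (K : Finset α) (Q : Finset β)
  (f : α → β), (∀ a ∈ K, f a ∈ Q) →
  K.card * K.card ≤
    Q.card * (K.card + ((K ×ˢ K).filter (fun p => p.1 ≠ p.2 ∧ f p.1 = f p.2)).card)

/-- subsets of small blocks -/
def ST_FIB : Prop := ∀ (n M s : ℕ) (P : Finset (Finset (Fin n))), P.card ≤ M →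
  ((univ : Finset (Finset (Fin n))).filter
    (fun A => ∃ D ∈ P, A ⊆ D ∧ D.card ≤ 2 * s)).card ≤ M * 2 ^ (2 * s)

open scoped Classical in
/-- many pairs of small blocks inside one block of `Q` -/
def ST_PRS : Prop := ∀ (n m q s : ℕ) (P Q : Finset (Finset (Fin n))), Pt P → Pt Q → P.card = m →
  Q.card ≤ q → Rf P Q → 1 ≤ q → 2 * n ≤ (s + 1) * m → q * (2 ^ (2 * s + 2) + 2) ≤ m →
  m * 2 ^ (2 * s) ≤ ((univ : Finset (Finset (Fin n) × Finset (Fin n))).filter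
    (fun p => p.1 ∈ P ∧ p.2 ∈ P ∧ p.1 ≠ p.2 ∧ p.1.card ≤ s ∧ p.2.card ≤ s ∧
      ∃ C ∈ Q, p.1 ⊆ C ∧ p.2 ⊆ C)).card

open scoped Classical in
/-- the local inequality: partitions that refine `Q` -/
def ST_LOC : Prop := ∀ (n m q s : ℕ) (Q : Finset (Finset (Fin n)))
  (Z : Finset (Finset (Finset (Fin n)))), Pt Q → Q.card ≤ q → 1 ≤ q →
  2 * n ≤ (s + 1) * m → q * (2 ^ (2 * s + 2) + 2) ≤ m →
  (∀ P ∈ Z, Pt P ∧ P.card = m ∧ Rf P Q) →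
  Z.card ≤ ((univ : Finset (Finset (Finset (Fin n)))).filter
    (fun R => Rf R Q ∧ ∃ P ∈ Z, ∃ A ∈ P, ∃ B ∈ P, A ≠ B ∧ R = mg P A B)).card

open scoped Classical in
/-- from local to global -/
def ST_GLO : Prop := ∀ (n m q s : ℕ) (E : Finset (Finset (Fin n))), 1 ≤ q →
  2 * n ≤ (s + 1) * m → q * (2 ^ (2 * s + 2) + 2) ≤ m →
  (∀ P : Finset (Finset (Fin n)), Pt P → Ind E P → P.card = m →
    ∃ Q, Pt Q ∧ Ind E Q ∧ Rf P Q ∧ Q.card ≤ q) →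
  ∀ X : Finset (Finset (Finset (Fin n))), (∀ P ∈ X, Pt P ∧ Ind E P ∧ P.card = m) →
  X.card ≤ ((univ : Finset (Finset (Finset (Fin n)))).filter
    (fun R => Ind E R ∧ ∃ P ∈ X, ∃ A ∈ P, ∃ B ∈ P, A ≠ B ∧ R = mg P A B)).card

/-- coarsening as long as possible -/
def ST_CRS : Prop := ∀ (n : ℕ) (E P : Finset (Finset (Fin n))), Pt P → Ind E P →
  ∃ Q, Pt Q ∧ Ind E Q ∧ Rf P Q ∧ Cpl E Q

/-- the number of blocks of a complete partition: blocks with `2 |B| ≤ T` -/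
def ST_PS1 : Prop := ∀ (n T : ℕ) (E Q : Finset (Finset (Fin n))), Pt Q → Ind E Q → Cpl E Q →
  (Q.filter (fun B => 2 * B.card ≤ T)).card * ((Q.filter (fun B => 2 * B.card ≤ T)).card - 1) ≤
    2 * (E.filter (fun e => e.card ≤ T)).card

/-- blocks with `2 |B| > T` -/
def ST_PS2 : Prop := ∀ (n T : ℕ) (Q : Finset (Finset (Fin n))), Pt Q →
  (Q.filter (fun B => ¬ 2 * B.card ≤ T)).card * T ≤ 2 * n

/-- the number of blocks of a complete partition -/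
def ST_PSI : Prop := ∀ (n T : ℕ) (E Q : Finset (Finset (Fin n))), 1 ≤ T → Pt Q → Ind E Q →
  Cpl E Q →
  (Q.card : ℝ) ≤ 1 + Real.sqrt (2 * (E.filter (fun e => e.card ≤ T)).card) + 2 * n / T

/-- the inequality with parameters -/
def ST_PAR : Prop := ∀ (n m q s : ℕ) (E : Finset (Finset (Fin n))) (b : ℕ → ℕ),
  (∀ m : ℕ, b m = Set.ncard {P : Finset (Finset (Fin n)) |
    P.card = m ∧
    (∀ B ∈ P, B.Nonempty) ∧
    (∀ B ∈ P, ∀ C ∈ P, B ≠ C → Disjoint B C) ∧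
    (∀ v : Fin n, ∃ B ∈ P, v ∈ B) ∧
    (∀ B ∈ P, ∀ e ∈ E, ¬ e ⊆ B)}) →
  1 ≤ q → 2 * n ≤ (s + 1) * m → q * (2 ^ (2 * s + 2) + 2) ≤ m →
  (∀ P : Finset (Finset (Fin n)), Pt P → Ind E P → P.card = m →
    ∃ Q, Pt Q ∧ Ind E Q ∧ Rf P Q ∧ Q.card ≤ q) →
  b m ≤ b (m - 1)

/-- numbers -/
def ST_NUM : Prop := ∀ (n m q : ℕ), 1 ≤ q → 1 ≤ n → 5 * (n : ℝ) ≤ m * Real.log ((n : ℝ) / q) →
  ∃ s : ℕ, 2 * n ≤ (s + 1) * m ∧ q * (2 ^ (2 * s + 2) + 2) ≤ m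

/-- main theorem -/
def ST_FIN : Prop := ∀ (n : ℕ) (E : Finset (Finset (Fin n))) (b : ℕ → ℕ), 1 ≤ n →
  (∀ m : ℕ, b m = Set.ncard {P : Finset (Finset (Fin n)) |
    P.card = m ∧
    (∀ B ∈ P, B.Nonempty) ∧
    (∀ B ∈ P, ∀ C ∈ P, B ≠ C → Disjoint B C) ∧
    (∀ v : Fin n, ∃ B ∈ P, v ∈ B) ∧
    (∀ B ∈ P, ∀ e ∈ E, ¬ e ⊆ B)}) →
  (∀ q : ℕ, 1 ≤ q → (∀ P, Pt P → Ind E P → Cpl E P → P.card ≤ q) →
    ∀ m : ℕ, 5 * (n : ℝ) ≤ m * Real.log ((n : ℝ) / q) → b m ≤ b (m - 1)) ∧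
  ∀ T : ℕ, 1 ≤ T → ∀ P, Pt P → Ind E P → Cpl E P →
    (P.card : ℝ) ≤ 1 + Real.sqrt (2 * (E.filter (fun e => e.card ≤ T)).card) + 2 * n / T

end Pool.Agent.Helper5.FS
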