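import Pool.Agent.Helper5.FS.Stmts

set_option autoImplicit false

open Finset

namespace Pool.Agent.Helper5.FS

/-- at least `k` blocks are small (general form of SML) -/
def ST_SM2 : Prop := ∀ (n s m k : ℕ) (P : Finset (Finset (Fin n))), Pt P → P.card = m → k ≤ m →
  n < (s + 1) * (m + 1 - k) → k ≤ (P.filter (fun B => B.card ≤ s)).card

open scoped Classical in
/-- many pairs of small blocks inside one block of `Q` (general form of PRS) -/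
def ST_PR2 : Prop := ∀ (n m q s k : ℕ) (P Q : Finset (Finset (Fin n))), Pt P → Pt Q →
  P.card = m → Q.card ≤ q → Rf P Q → 1 ≤ q → k ≤ m → n < (s + 1) * (m + 1 - k) →
  q * (m * 2 ^ (2 * s) + k) ≤ k * k →
  m * 2 ^ (2 * s) ≤ ((univ : Finset (Finset (Fin n) × Finset (Fin n))).filter
    (fun p => p.1 ∈ P ∧ p.2 ∈ P ∧ p.1 ≠ p.2 ∧ p.1.card ≤ s ∧ p.2.card ≤ s ∧
      ∃ C ∈ Q, p.1 ⊆ C ∧ p.2 ⊆ C)).card

open scoped Classical in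
/-- the local inequality: partitions that refine `Q` (general form of LOC) -/
def ST_LO2 : Prop := ∀ (n m q s k : ℕ) (Q : Finset (Finset (Fin n)))
  (Z : Finset (Finset (Finset (Fin n)))), Pt Q → Q.card ≤ q → 1 ≤ q → 1 ≤ m → k ≤ m →
  n < (s + 1) * (m + 1 - k) → q * (m * 2 ^ (2 * s) + k) ≤ k * k →
  (∀ P ∈ Z, Pt P ∧ P.card = m ∧ Rf P Q) →
  Z.card ≤ ((univ : Finset (Finset (Finset (Fin n)))).filter
    (fun R => Rf R Q ∧ ∃ P ∈ Z, ∃ A ∈ P, ∃ B ∈ P, A ≠ B ∧ R = mg P A B)).card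

open scoped Classical in
/-- from local to global (general form of GLO) -/
def ST_GL2 : Prop := ∀ (n m q s k : ℕ) (E : Finset (Finset (Fin n))), 1 ≤ q → 1 ≤ m → k ≤ m →
  n < (s + 1) * (m + 1 - k) → q * (m * 2 ^ (2 * s) + k) ≤ k * k →
  (∀ P : Finset (Finset (Fin n)), Pt P → Ind E P → P.card = m →
    ∃ Q, Pt Q ∧ Ind E Q ∧ Rf P Q ∧ Q.card ≤ q) →
  ∀ X : Finset (Finset (Finset (Fin n))), (∀ P ∈ X, Pt P ∧ Ind E P ∧ P.card = m) →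
  X.card ≤ ((univ : Finset (Finset (Finset (Fin n)))).filter
    (fun R => Ind E R ∧ ∃ P ∈ X, ∃ A ∈ P, ∃ B ∈ P, A ≠ B ∧ R = mg P A B)).card

/-- the inequality with parameters (general form of PAR) -/
def ST_PA2 : Prop := ∀ (n m q s k : ℕ) (E : Finset (Finset (Fin n))) (b : ℕ → ℕ),
  (∀ m : ℕ, b m = Set.ncard {P : Finset (Finset (Fin n)) |
    P.card = m ∧
    (∀ B ∈ P, B.Nonempty) ∧
    (∀ B ∈ P, ∀ C ∈ P, B ≠ C → Disjoint B C) ∧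
    (∀ v : Fin n, ∃ B ∈ P, v ∈ B) ∧
    (∀ B ∈ P, ∀ e ∈ E, ¬ e ⊆ B)}) →
  1 ≤ q → 1 ≤ m → k ≤ m → n < (s + 1) * (m + 1 - k) → q * (m * 2 ^ (2 * s) + k) ≤ k * k →
  (∀ P : Finset (Finset (Fin n)), Pt P → Ind E P → P.card = m →
    ∃ Q, Pt Q ∧ Ind E Q ∧ Rf P Q ∧ Q.card ≤ q) →
  b m ≤ b (m - 1)

/-- numbers, constant `2 log 2` -/
def ST_NU2 : Prop := ∀ δ : ℝ, 0 < δ → ∃ K : ℝ, ∀ (n m q : ℕ), 1 ≤ q → 1 ≤ n →
  K ≤ Real.log ((n : ℝ) / q) → (2 * Real.log 2 + δ) * n ≤ m * Real.log ((n : ℝ) / q) →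
  ∃ s k : ℕ, 1 ≤ m ∧ k ≤ m ∧ n < (s + 1) * (m + 1 - k) ∧ q * (m * 2 ^ (2 * s) + k) ≤ k * k

/-- main theorem, constant `2 log 2` -/
def ST_FI2 : Prop := ∀ δ : ℝ, 0 < δ → ∃ K : ℝ,
  ∀ (n : ℕ) (E : Finset (Finset (Fin n))) (b : ℕ → ℕ), 1 ≤ n →
  (∀ m : ℕ, b m = Set.ncard {P : Finset (Finset (Fin n)) |
    P.card = m ∧
    (∀ B ∈ P, B.Nonempty) ∧
    (∀ B ∈ P, ∀ C ∈ P, B ≠ C → Disjoint B C) ∧
    (∀ v : Fin n, ∃ B ∈ P, v ∈ B) ∧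
    (∀ B ∈ P, ∀ e ∈ E, ¬ e ⊆ B)}) →
  ∀ q : ℕ, 1 ≤ q → (∀ P, Pt P → Ind E P → Cpl E P → P.card ≤ q) →
    K ≤ Real.log ((n : ℝ) / q) →
    ∀ m : ℕ, (2 * Real.log 2 + δ) * n ≤ m * Real.log ((n : ℝ) / q) → b m ≤ b (m - 1)

end Pool.Agent.Helper5.FS
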